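import Pool.Agent.W172.MK.Stm

/-! # MP_65c995_pr, project MK: the sign family from the map -/

set_option autoImplicit false

namespace Pool.Agent.W369.MK

open Pool.Agent.W172.MK

lemma sg_add (x y : ZMod 2) : sg (x + y) = sg x * sg y := by
  have h : ∀ x y : ZMod 2, (x = 0 ∧ y = 0 ∧ x + y = 0) ∨ (x = 0 ∧ y ≠ 0 ∧ x + y ≠ 0) ∨
      (x ≠ 0 ∧ y = 0 ∧ x + y ≠ 0) ∨ (x ≠ 0 ∧ y ≠ 0 ∧ x + y = 0) := by decide
  unfold sg
  rcases h x y with ⟨h1, h2, h3⟩ | ⟨h1, h2, h3⟩ | ⟨h1, h2, h3⟩ | ⟨h1, h2, h3⟩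
  · rw [if_pos h3, if_pos h1, if_pos h2, one_mul]
  · rw [if_neg h3, if_pos h1, if_neg h2, one_mul]
  · rw [if_neg h3, if_neg h1, if_pos h2, mul_one]
  · rw [if_pos h3, if_neg h1, if_neg h2]; norm_num

lemma sg_or (x : ZMod 2) : sg x = 1 ∨ sg x = -1 := by
  unfold sg
  split_ifs
  · exact Or.inl rfl
  · exact Or.inr rfl

lemma sg_ne {x : ZMod 2} (h : x ≠ 0) : sg x = -1 := if_neg h

lemma sum_sg {s : ℕ} (c : ZMod 2) (φ : Fin s → ZMod 2) (h : ∃ i, φ i ≠ 0) :
    ∑ y : Fin s → ZMod 2, sg (c + ∑ i, y i * φ i) = 0 := by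
  obtain ⟨j, hj⟩ := h
  let d : Fin s → ZMod 2 := Pi.single j 1
  have h1 : ∑ y : Fin s → ZMod 2, sg (c + ∑ i, y i * φ i) =
      ∑ y : Fin s → ZMod 2, sg (c + ∑ i, (y + d) i * φ i) :=
    (Equiv.sum_comp (Equiv.addRight d)
      (fun y : Fin s → ZMod 2 => sg (c + ∑ i, y i * φ i))).symm
  have h2 : ∀ y : Fin s → ZMod 2, sg (c + ∑ i, (y + d) i * φ i) =
      - sg (c + ∑ i, y i * φ i) := by
    intro y
    have h3 : ∑ i, (y + d) i * φ i = (∑ i, y i * φ i) + φ j := by
      have h4 : ∀ i, (y + d) i * φ i = y i * φ i + (if i = j then φ j else 0) := by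
        intro i
        rw [Pi.add_apply, add_mul]
        congr 1
        by_cases hij : i = j
        · subst hij
          change (Pi.single i (1 : ZMod 2) : Fin s → ZMod 2) i * φ i = _
          rw [Pi.single_eq_same, one_mul, if_pos rfl]
        · change (Pi.single j (1 : ZMod 2) : Fin s → ZMod 2) i * φ i = _
          rw [Pi.single_eq_of_ne hij, zero_mul, if_neg hij]
      rw [Finset.sum_congr rfl fun i _ => h4 i, Finset.sum_add_distrib]
      simp
    rw [h3, ← add_assoc, sg_add _ (φ j), sg_ne hj, mul_neg_one]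
  rw [Finset.sum_congr rfl fun y _ => h2 y, Finset.sum_neg_distrib] at h1
  linarith

lemma add_ne {x y : ZMod 2} (h : x ≠ y) : x + y ≠ 0 := by
  revert x y
  decide

theorem exist : P_PSI → P_EXIST := by
  rintro ⟨n, s, hn, ψ, h1, h2, h3⟩
  have hc : Fintype.card (Fin s → ZMod 2) = (2 ^ s - 1) + 1 := by
    have : 0 < 2 ^ s := by positivity
    simp only [Fintype.card_pi, ZMod.card, Finset.prod_const, Finset.card_univ, Fintype.card_fin]
    omega
  let e : Fin ((2 ^ s - 1) + 1) ≃ (Fin s → ZMod 2) := (Fintype.equivFinOfCardEq hc).symm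
  refine ⟨n, 2 ^ s - 1, fun y b => sg (ψ b (Fin.last s) + ∑ i : Fin s, (e y) i * ψ b i.castSucc),
    hn, ?_, ?_, ?_, ?_, ?_⟩
  · intro y b
    exact sg_or _
  · intro b
    have := Equiv.sum_comp e (fun y : Fin s → ZMod 2 =>
      sg (ψ b (Fin.last s) + ∑ i : Fin s, y i * ψ b i.castSucc))
    rw [this]
    exact sum_sg _ (fun i => ψ b i.castSucc) (h1 b)
  · intro b b' hbb
    have h4 : ∀ y : Fin s → ZMod 2,
        sg (ψ b (Fin.last s) + ∑ i : Fin s, y i * ψ b i.castSucc) *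
          sg (ψ b' (Fin.last s) + ∑ i : Fin s, y i * ψ b' i.castSucc) =
        sg ((ψ b (Fin.last s) + ψ b' (Fin.last s)) +
          ∑ i : Fin s, y i * (ψ b i.castSucc + ψ b' i.castSucc)) := by
      intro y
      rw [← sg_add]
      congr 1
      simp only [mul_add, Finset.sum_add_distrib]
      ring
    have := Equiv.sum_comp e (fun y : Fin s → ZMod 2 =>
      sg (ψ b (Fin.last s) + ∑ i : Fin s, y i * ψ b i.castSucc) *
          sg (ψ b' (Fin.last s) + ∑ i : Fin s, y i * ψ b' i.castSucc))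
    rw [this, Finset.sum_congr rfl fun y _ => h4 y]
    obtain ⟨i, hi⟩ := h2 b b' hbb
    exact sum_sg _ (fun i => ψ b i.castSucc + ψ b' i.castSucc) ⟨i, add_ne hi⟩
  · intro y z hyz a
    have h5 : e y ≠ e z := fun h => hyz (e.injective h)
    obtain ⟨i, hi⟩ := Function.ne_iff.1 h5
    have h6 : (Fin.snoc (α := fun _ => ZMod 2) (e y + e z) 0 : Fin (s + 1) → ZMod 2) ≠ 0 := by
      intro h
      have := congrFun h i.castSucc
      rw [Fin.snoc_castSucc] at this
      exact add_ne hi this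
    have h7 := h3 _ h6 a
    have h8 : (fun b => sg (∑ i, (Fin.snoc (α := fun _ => ZMod 2) (e y + e z) 0 :
        Fin (s + 1) → ZMod 2) i * ψ b i)) = fun b =>
        sg (ψ b (Fin.last s) + ∑ i : Fin s, (e y) i * ψ b i.castSucc) *
        sg (ψ b (Fin.last s) + ∑ i : Fin s, (e z) i * ψ b i.castSucc) := by
      funext b
      rw [← sg_add, Fin.sum_univ_castSucc]
      congr 1
      simp only [Fin.snoc_castSucc, Fin.snoc_last, Pi.add_apply, add_mul,
        Finset.sum_add_distrib, zero_mul, add_zero]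
      have h9 : ψ b (Fin.last s) + ψ b (Fin.last s) = 0 := CharTwo.add_self_eq_zero _
      linear_combination -h9
    rw [h8] at h7
    exact h7
  · intro y a
    have h6 : (Fin.snoc (α := fun _ => ZMod 2) (e y) 1 : Fin (s + 1) → ZMod 2) ≠ 0 := by
      intro h
      have := congrFun h (Fin.last s)
      rw [Fin.snoc_last] at this
      exact one_ne_zero this
    have h7 := h3 _ h6 a
    have h8 : (fun b => sg (∑ i, (Fin.snoc (α := fun _ => ZMod 2) (e y) 1 :
        Fin (s + 1) → ZMod 2) i * ψ b i)) = fun b =>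
        sg (ψ b (Fin.last s) + ∑ i : Fin s, (e y) i * ψ b i.castSucc) := by
      funext b
      rw [Fin.sum_univ_castSucc]
      congr 1
      simp only [Fin.snoc_castSucc, Fin.snoc_last, one_mul]
      rw [add_comm]
    rw [h8] at h7
    exact h7

end Pool.Agent.W369.MK
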